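import Pool.Agent.X39.Win.Ell
import Pool.Agent.X12.Szp17
import Pool.Agent.X12.Szp18

/-!
# The Faltings height against the conductor for ALL elliptic curves over `ℚ` in small boxes

Let `v ≥ 1` be a sequence with exponent of convergence at most `τ` (for `v_n = n ^ k` this is `1 / k`,
for `v_n = b ^ n` it is `0`) and `lam > 1 / 12`. For almost all points `(α, β)` of the plane, for all
large `n`, ALL elliptic curves `y² = x³ - a x - b` over `ℚ` (minimal models, arbitrary reduction) in the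
boxes `|a - α v_n ^ 2| ≤ v_n ^ θ₁`, `|b - β v_n ^ 3| ≤ v_n ^ θ₂` satisfy `h_F ≤ lam log N + c`, if
`θ₁ + θ₂ + τ` is less than `min (6 - 1 / (2 lam), 1)`.
-/

set_option autoImplicit false

open MeasureTheory

namespace Pool.Agent.Results.MP_6babc4_nt.AllCurvesInBoxes

/-- the exponent of convergence of the sequence `v` is at most `τ` -/
def ExpLe (v : ℕ → ℝ) (τ : ℝ) : Prop := ∀ t : ℝ, τ < t → Summable (fun n : ℕ => (v n) ^ (-t))

/-- the discriminant of `x³ - a x - b` -/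
def Disc (a b : ℤ) : ℤ := 4 * a ^ 3 - 27 * b ^ 2

/-- `y² = x³ - a x - b` is an elliptic curve and `|Disc|` is least among the integral models
`y² = x³ - a' x - b'`, `a' = u⁴ a`, `b' = u⁶ b`, `u ∈ ℚ^×`. Every elliptic curve over `ℚ` has exactly
one such model. -/
def IsMinimal (a b : ℤ) : Prop :=
  Disc a b ≠ 0 ∧ ∀ (u : ℚ) (a' b' : ℤ), u ≠ 0 → (a' : ℚ) = u ^ 4 * a → (b' : ℚ) = u ^ 6 * b →
    |Disc a b| ≤ |Disc a' b'|

/-- the prime-to-6 part of the conductor of a minimal model: the product over the primes `p ≥ 5`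
dividing `Disc` of `p` (multiplicative reduction: `p ∤ a`) or `p²` (additive reduction: `p ∣ a`) -/
def Cond6 (a b : ℤ) : ℕ :=
  ∏ p ∈ (Disc a b).natAbs.primeFactors.filter (fun p => 5 ≤ p), if (p : ℤ) ∣ a then p ^ 2 else p

/-- the curve `y² = x³ - a x - b` over `ℚ`, `q = (a, b)` -/
def E (q : ℤ × ℤ) : WeierstrassCurve ℚ := ⟨0, 0, 0, -(q.1 : ℚ), -(q.2 : ℚ)⟩

/-- the absolute value of the minimal discriminant of an elliptic curve `W` over `ℚ`: the smallest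
absolute value of the discriminant of a Weierstrass equation `V` with integer coefficients which is
isomorphic to `W` over `ℚ` -/
noncomputable def minDisc (W : WeierstrassCurve ℚ) : ℕ :=
  sInf {n : ℕ | ∃ (V : WeierstrassCurve ℤ) (C : WeierstrassCurve.VariableChange ℚ),
    C • W = V.map (Int.castRingHom ℚ) ∧ n = V.Δ.natAbs}

/-- the modular invariant `j(τ) = E₄(τ) ^ 3 / Δ(τ) = 1 / q + 744 + ⋯` -/
noncomputable def jInv (τ : UpperHalfPlane) : ℂ :=
  ModularForm.E₄ τ ^ 3 / ModularForm.discriminant τ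

/-- the archimedean term `- log (|Δ(τ)| (Im τ) ^ 6)` of the Faltings height -/
noncomputable def arch (τ : UpperHalfPlane) : ℝ :=
  -Real.log (‖ModularForm.discriminant τ‖ * τ.im ^ 6)

/-- `E(ℂ)` is isomorphic to `ℂ / (ℤ + ℤ τ)`: `j(τ) = c₄³ / Δ` is the invariant of `E` -/
def IsPeriod (q : ℤ × ℤ) (τ : UpperHalfPlane) : Prop :=
  jInv τ = (((E q).c₄ ^ 3 / (E q).Δ : ℚ) : ℂ)

/-- The Faltings height over `ℚ` (up to an additive constant which depends on the normalisation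
only): `12 h_F(E)` is the logarithm of the minimal discriminant plus the archimedean term at a period
`τ` of the curve. -/
noncomputable def height (q : ℤ × ℤ) (τ : UpperHalfPlane) : ℝ :=
  (Real.log (minDisc (E q) : ℝ) + arch τ) / 12

/-- `(a, b)` is in the box `|a - α x ^ 2| ≤ x ^ θ₁`, `|b - β x ^ 3| ≤ x ^ θ₂`, `p = (α, β)` -/
def InBox (p : ℝ × ℝ) (x θ₁ θ₂ : ℝ) (q : ℤ × ℤ) : Prop :=
  |(q.1 : ℝ) - p.1 * x ^ 2| ≤ x ^ θ₁ ∧ |(q.2 : ℝ) - p.2 * x ^ 3| ≤ x ^ θ₂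

/-- **Theorem.** Let `v ≥ 1` be a sequence with exponent of convergence at most `τ`, `lam > 1 / 12` and
`τ + θ₁ + θ₂ < min (6 - 1 / (2 lam), 1)`. For almost all `(α, β)` and each real `c`, for all large `n`,
ALL elliptic curves over `ℚ` in the box around `(α v_n ^ 2, β v_n ^ 3)` with sides `2 v_n ^ θ₁`,
`2 v_n ^ θ₂` satisfy `h_F ≤ lam log N + c`, `N` the prime-to-6 part of the conductor. Every curve has a
period. The sequences `v_n = (n + 1) ^ k` and `v_n = b ^ n` have exponent of convergence at most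
`1 / k` and `0`. -/
theorem result :
    (∀ (v : ℕ → ℝ) (τ θ₁ θ₂ lam : ℝ), (∀ n, 1 ≤ v n) → ExpLe v τ → θ₁ ≤ 2 → θ₂ ≤ 3 → 1 / 12 < lam →
      τ + θ₁ + θ₂ < min (6 - 1 / (2 * lam)) 1 →
      ∀ᵐ p : ℝ × ℝ, ∀ c : ℝ, ∃ n₀ : ℕ, ∀ n : ℕ, n₀ ≤ n → ∀ q : ℤ × ℤ,
        IsMinimal q.1 q.2 → InBox p (v n) θ₁ θ₂ q → ∀ z : UpperHalfPlane, IsPeriod q z →
          height q z ≤ lam * Real.log (Cond6 q.1 q.2 : ℝ) + c) ∧
    (∀ q : ℤ × ℤ, ∃ z, IsPeriod q z) ∧
    (∀ k : ℝ, 0 < k → ExpLe (fun n : ℕ => ((n : ℝ) + 1) ^ k) (1 / k)) ∧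
    (∀ b : ℝ, 1 < b → ExpLe (fun n : ℕ => b ^ n) 0) := by
  refine ⟨?_, Pool.Agent.X12.Szp.ex_Pr, fun κ hκ => Pool.Agent.Y854.GM.expLe_pow κ hκ,
    fun b hb => Pool.Agent.Y854.GM.expLe_geom b hb⟩
  intro v τ θ₁ θ₂ lam hv hE h1 h2 hlam hs
  have hlam0 : 0 < lam := by linarith
  have hs1 := hs.trans_le (min_le_left _ _)
  have hs2 := hs.trans_le (min_le_right _ _)
  have hk : ∀ k : ℕ, ∀ᵐ p : ℝ × ℝ, ∃ n₀ : ℕ, ∀ n : ℕ, n₀ ≤ n → ∀ q : ℤ × ℤ,
      IsMinimal q.1 q.2 → InBox p (v n) θ₁ θ₂ q → ∀ z : UpperHalfPlane, IsPeriod q z →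
        height q z ≤ lam * Real.log (Cond6 q.1 q.2 : ℝ) + (-(k : ℝ)) := by
    intro k
    have hT : Pool.Agent.X39.Win.Thin (Pool.Agent.X12.Szp.WS lam (-(k : ℝ)))
        (max (1 / (2 * lam) - 1) 4) := by
      intro ε hε
      obtain ⟨K, -, h⟩ := Pool.Agent.X12.Szp.WS_box lam (-(k : ℝ)) ε hlam0 hε
      exact ⟨K, h⟩
    have hsum : max (1 / (2 * lam) - 1) 4 + τ + θ₁ + θ₂ < 5 := by
      rcases max_choice (1 / (2 * lam) - 1) 4 with h | h <;> rw [h] <;> linarith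
    filter_upwards [Pool.Agent.X39.Win.pairs _ hT hv hE h1 h2 hsum] with p hp
    obtain ⟨n₀, hn⟩ := hp
    refine ⟨n₀, fun n hn1 q hq hb z hz => ?_⟩
    by_contra hcon
    push Not at hcon
    exact hn n hn1 q ⟨z, hq, hz, hcon⟩ hb
  filter_upwards [ae_all_iff.2 hk] with p hp c
  obtain ⟨k, hk⟩ := exists_nat_ge (-c)
  obtain ⟨n₀, hn⟩ := hp k
  refine ⟨n₀, fun n hn1 q hq hb z hz => (hn n hn1 q hq hb z hz).trans ?_⟩
  linarith

end Pool.Agent.Results.MP_6babc4_nt.AllCurvesInBoxes
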