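import Mathlib
import Pool.Agent.X286.Win.Gen
import Pool.Agent.Results.MP_6babc4_nt.ConductorOrderedSlope

/-!
# Frey's inequality without exceptions, in windows of the conductor

Let `L` be a number field. For `κ > 1/6`, for almost all real numbers `a > 0` (and outside a set of
Hausdorff dimension less than `2/3 / (1 - θ)`), ALL elliptic curves `E` over `L` with full rational
two-torsion whose conductor (outside two) is in the windows `|cond E - a v k| ≤ (v k) ^ θ`, for all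
but finitely many `k`, satisfy `[K : ℚ] h_F(Res_{L/K} E) < κ log (cond E) - c` for all subfields
`K`; and in shorter windows there are no conductors at all.
-/

set_option autoImplicit false

namespace Pool.Agent.Results.MP_6babc4_nt.NoExceptionsInWindows

open NumberField IsDedekindDomain MeasureTheory Filter Topology

/-- the exponent of convergence of the sequence `v` is at most `τ` -/
def ExpLe (v : ℕ → ℝ) (τ : ℝ) : Prop := ∀ t : ℝ, τ < t → Summable (fun n : ℕ => (v n) ^ (-t))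

/-- the modular invariant `j(τ) = E₄(τ) ^ 3 / Δ(τ) = 1 / q + 744 + ⋯` -/
noncomputable def jInv (τ : UpperHalfPlane) : ℂ :=
  ModularForm.E₄ τ ^ 3 / ModularForm.discriminant τ

/-- the archimedean term `- log (|Δ(τ)| (Im τ) ^ 6)` of the Faltings height -/
noncomputable def arch (τ : UpperHalfPlane) : ℝ :=
  -Real.log (‖ModularForm.discriminant τ‖ * τ.im ^ 6)

/-- the points `τ w` have modular invariant `j` -/
def IsPeriod {K : Type} [Field K] [NumberField K] (j : K)
    (τ : InfinitePlace K → UpperHalfPlane) : Prop := ∀ w, jInv (τ w) = w.embedding j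

/-- the equation is integral at `v` -/
def IntAt {K : Type} [Field K] [NumberField K] (v : HeightOneSpectrum (𝓞 K))
    (E : WeierstrassCurve K) : Prop :=
  v.valuation K E.a₁ ≤ 1 ∧ v.valuation K E.a₂ ≤ 1 ∧ v.valuation K E.a₃ ≤ 1 ∧
    v.valuation K E.a₄ ≤ 1 ∧ v.valuation K E.a₆ ≤ 1

/-- the exponent of `v` in the minimal discriminant of the curve: the least valuation at `v` of the
discriminant of a Weierstrass equation of the curve over `K` which is integral at `v` -/
noncomputable def discExp {K : Type} [Field K] [NumberField K] (v : HeightOneSpectrum (𝓞 K))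
    (E : WeierstrassCurve K) : ℕ :=
  sInf {m : ℕ | ∃ C : WeierstrassCurve.VariableChange K, IntAt v (C • E) ∧
    v.valuation K (C • E).Δ = WithZero.exp (-(m : ℤ))}

/-- the Faltings height over `K` of the Weil restriction `A = Res_{L/K} E` of an elliptic curve `E`
over `L` (up to an additive constant which depends on the normalisation of the metric only):
`12 [K : ℚ] h_F(A)` is the sum of the logarithm of the norm of the minimal discriminant of `E`, of
the archimedean terms, and of `6 log (|D_L| / |D_K| ^ [L : K])` -/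
noncomputable def height (K : Type) [Field K] [NumberField K] {L : Type} [Field L] [NumberField L]
    [Algebra K L] (E : WeierstrassCurve L) (τ : InfinitePlace L → UpperHalfPlane) : ℝ :=
  (∑ᶠ v : HeightOneSpectrum (𝓞 L), (discExp v E : ℝ) * Real.log (Ideal.absNorm v.asIdeal : ℝ) +
    ∑ w : InfinitePlace L, (w.mult : ℝ) * arch (τ w) +
    6 * (Real.log |(discr L : ℝ)| - Module.finrank K L * Real.log |(discr K : ℝ)|)) /
    (12 * Module.finrank ℚ K)

/-- full rational two-torsion: the polynomial of the first coordinates of the points of order two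
has three roots -/
def FullTwo {K : Type} [Field K] (E : WeierstrassCurve K) : Prop :=
  ∃ e : Fin 3 → K, Function.Injective e ∧
    ∀ i, 4 * e i ^ 3 + E.b₂ * e i ^ 2 + 2 * E.b₄ * e i + E.b₆ = 0

/-- good reduction at `v`: some Weierstrass equation over `K` of the curve is integral at `v` and
has a discriminant which is a unit at `v` -/
def GoodAt {K : Type} [Field K] [NumberField K] (v : HeightOneSpectrum (𝓞 K))
    (E : WeierstrassCurve K) : Prop :=
  ∃ C : WeierstrassCurve.VariableChange K,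
    v.valuation K (C • E).a₁ ≤ 1 ∧ v.valuation K (C • E).a₂ ≤ 1 ∧ v.valuation K (C • E).a₃ ≤ 1 ∧
    v.valuation K (C • E).a₄ ≤ 1 ∧ v.valuation K (C • E).a₆ ≤ 1 ∧ v.valuation K (C • E).Δ = 1

/-- semistable (good or multiplicative) reduction at `v`: some Weierstrass equation over `K` of the
curve is integral at `v` and its discriminant or its invariant `c₄` is a unit at `v` -/
def SemistableAt {K : Type} [Field K] [NumberField K] (v : HeightOneSpectrum (𝓞 K))
    (E : WeierstrassCurve K) : Prop :=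
  ∃ C : WeierstrassCurve.VariableChange K,
    v.valuation K (C • E).a₁ ≤ 1 ∧ v.valuation K (C • E).a₂ ≤ 1 ∧ v.valuation K (C • E).a₃ ≤ 1 ∧
    v.valuation K (C • E).a₄ ≤ 1 ∧ v.valuation K (C • E).a₆ ≤ 1 ∧
    (v.valuation K (C • E).Δ = 1 ∨ v.valuation K (C • E).c₄ = 1)

/-- the part prime to two of the norm of the conductor: the product over the primes `v` not above
two of `N(v)` for multiplicative and `N(v) ^ 2` for additive reduction -/
noncomputable def cond {K : Type} [Field K] [NumberField K] (E : WeierstrassCurve K) : ℝ :=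
  (∏ᶠ v ∈ {v : HeightOneSpectrum (𝓞 K) | ¬ GoodAt v E ∧ v.valuation K 2 = 1},
    (Ideal.absNorm v.asIdeal : ℝ)) *
  ∏ᶠ v ∈ {v : HeightOneSpectrum (𝓞 K) | ¬ SemistableAt v E ∧ v.valuation K 2 = 1},
    (Ideal.absNorm v.asIdeal : ℝ)

/-- the Weierstrass curves over `K` up to isomorphism over `K` (changes of variables) -/
abbrev IsoClass (K : Type) [Field K] : Type :=
  Quotient (MulAction.orbitRel (WeierstrassCurve.VariableChange K) (WeierstrassCurve K))

section lemmas

open ConductorOrderedSlope (IsoClass)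

variable {L : Type} [Field L] [NumberField L]

omit [NumberField L] in
theorem inv_exists (P : WeierstrassCurve L → Prop) (C : WeierstrassCurve.VariableChange L)
    (E : WeierstrassCurve L) : (∃ D : WeierstrassCurve.VariableChange L, P (D • (C • E))) ↔
      ∃ D : WeierstrassCurve.VariableChange L, P (D • E) := by
  constructor
  · rintro ⟨D, hD⟩
    exact ⟨D * C, by rwa [mul_smul]⟩
  · rintro ⟨D, hD⟩
    refine ⟨D * C⁻¹, ?_⟩
    rwa [← mul_smul, mul_assoc, inv_mul_cancel, mul_one]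

theorem cond_smul (C : WeierstrassCurve.VariableChange L) (E : WeierstrassCurve L) :
    cond (C • E) = cond E := by
  have h1 : ∀ v, GoodAt v (C • E) ↔ GoodAt v E := fun v => inv_exists (fun E =>
    v.valuation L E.a₁ ≤ 1 ∧ v.valuation L E.a₂ ≤ 1 ∧ v.valuation L E.a₃ ≤ 1 ∧
    v.valuation L E.a₄ ≤ 1 ∧ v.valuation L E.a₆ ≤ 1 ∧ v.valuation L E.Δ = 1) C E
  have h2 : ∀ v, SemistableAt v (C • E) ↔ SemistableAt v E := fun v => inv_exists (fun E =>
    v.valuation L E.a₁ ≤ 1 ∧ v.valuation L E.a₂ ≤ 1 ∧ v.valuation L E.a₃ ≤ 1 ∧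
    v.valuation L E.a₄ ≤ 1 ∧ v.valuation L E.a₆ ≤ 1 ∧
      (v.valuation L E.Δ = 1 ∨ v.valuation L E.c₄ = 1)) C E
  unfold cond
  simp only [h1, h2]

/-- the conductor of a class -/
noncomputable def condQ (q : IsoClass L) : ℝ := cond q.out

theorem condQ_mk {E : WeierstrassCurve L} {q : IsoClass L}
    (h : (Quotient.mk'' E : IsoClass L) = q) : condQ q = cond E := by
  unfold condQ
  have h1 : (Quotient.mk'' q.out : IsoClass L) = Quotient.mk'' E := by
    rw [h]
    exact Quotient.out_eq' q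
  have h2 := Quotient.exact h1
  obtain ⟨C, hC⟩ := (MulAction.orbitRel_apply.1 h2)
  simp only at hC
  rw [← hC, cond_smul]

/-- the violating classes -/
def Ex (L : Type) [Field L] [NumberField L] (κ c : ℝ) : Set (IsoClass L) :=
  {q | ∃ (E : WeierstrassCurve L) (τ : InfinitePlace L → UpperHalfPlane), Quotient.mk'' E = q ∧
    E.Δ ≠ 0 ∧ FullTwo E ∧ IsPeriod (E.c₄ ^ 3 / E.Δ) τ ∧
    κ * Real.log (cond E) + c ≤ Module.finrank ℚ ℚ * height ℚ E τ}

/-- all classes -/
def All (L : Type) [Field L] [NumberField L] : Set (IsoClass L) :=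
  {q | ∃ E : WeierstrassCurve L, Quotient.mk'' E = q ∧ E.Δ ≠ 0 ∧ FullTwo E}

theorem ex_eq (κ c X : ℝ) : {q | q ∈ Ex L κ c ∧ condQ q ≤ X} =
    ConductorOrderedSlope.High ℚ L κ c X := by
  ext q
  constructor
  · rintro ⟨⟨E, t, h1, h2, h3, h4, h5⟩, h6⟩
    rw [condQ_mk h1] at h6
    exact ⟨E, t, h1, h2, h3, h6, h4, h5⟩
  · rintro ⟨E, t, h1, h2, h3, h6, h4, h5⟩
    exact ⟨⟨E, t, h1, h2, h3, h4, h5⟩, by rw [condQ_mk h1]; exact h6⟩

theorem all_eq (X : ℝ) : {q | q ∈ All L ∧ condQ q ≤ X} = ConductorOrderedSlope.Curves L X := by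
  ext q
  constructor
  · rintro ⟨⟨E, h1, h2, h3⟩, h6⟩
    rw [condQ_mk h1] at h6
    exact ⟨E, h1, h2, h3, h6⟩
  · rintro ⟨E, h1, h2, h3, h6⟩
    exact ⟨⟨E, h1, h2, h3⟩, by rw [condQ_mk h1]; exact h6⟩

theorem ex_sub (κ c : ℝ) : Ex L κ c ⊆ All L := by
  rintro q ⟨E, t, h1, h2, h3, -, -⟩
  exact ⟨E, h1, h2, h3⟩

theorem finite_all (L : Type) [Field L] [NumberField L] (X : ℝ) :
    {q | q ∈ All L ∧ condQ q ≤ X}.Finite := by
  obtain ⟨X₀, h⟩ := (ConductorOrderedSlope.result ℚ L).1 1 one_pos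
  have h1 := (h (max X X₀) (le_max_right _ _)).1
  rw [← all_eq] at h1
  exact h1.subset fun q hq => ⟨hq.1, hq.2.trans (le_max_left _ _)⟩

/-- from large `X` to all `X` -/
theorem sparse_large {T : Type} {S : Set T} {h : T → ℝ} {s : ℝ} (hs : 0 ≤ s)
    (hf : ∀ X : ℝ, {t | t ∈ S ∧ h t ≤ X}.Finite)
    (hS : ∀ ε : ℝ, 0 < ε → ∃ X₀ : ℝ, ∀ X : ℝ, X₀ ≤ X →
      ({t | t ∈ S ∧ h t ≤ X}.ncard : ℝ) ≤ X ^ (s + ε)) : Pool.Agent.X286.Win.Sparse S h s := by
  intro ε hε
  obtain ⟨X₀, hX₀⟩ := hS ε hε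
  refine ⟨({t | t ∈ S ∧ h t ≤ X₀}.ncard : ℝ) + 1, fun X hX => ⟨hf X, ?_⟩⟩
  have hp : 1 ≤ X ^ (s + ε) := Real.one_le_rpow hX (by linarith)
  have h0 : (0 : ℝ) ≤ ({t | t ∈ S ∧ h t ≤ X₀}.ncard : ℝ) := Nat.cast_nonneg _
  rcases le_total X₀ X with h1 | h1
  · refine (hX₀ X h1).trans ?_
    nlinarith
  · have hsub : {t | t ∈ S ∧ h t ≤ X} ⊆ {t | t ∈ S ∧ h t ≤ X₀} :=
      fun t ht => ⟨ht.1, ht.2.trans h1⟩
    have h2 : (({t | t ∈ S ∧ h t ≤ X}.ncard : ℕ) : ℝ) ≤ ({t | t ∈ S ∧ h t ≤ X₀}.ncard : ℝ) := by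
      exact_mod_cast Set.ncard_le_ncard hsub (hf X₀)
    nlinarith

theorem sparse_all (L : Type) [Field L] [NumberField L] :
    Pool.Agent.X286.Win.Sparse (All L) condQ (2 / 3) := by
  refine sparse_large (by norm_num) (finite_all L) fun ε hε => ?_
  obtain ⟨X₀, h⟩ := (ConductorOrderedSlope.result ℚ L).1 ε hε
  refine ⟨X₀, fun X hX => ?_⟩
  rw [all_eq]
  exact (h X hX).2.2

theorem sparse_ex (L : Type) [Field L] [NumberField L] {κ : ℝ} (hκ : 1 / 6 < κ) :
    ∃ ν : ℝ, 0 < ν ∧ ν ≤ 2 / 3 ∧ ∀ c : ℝ,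
      Pool.Agent.X286.Win.Sparse (Ex L κ c) condQ (2 / 3 - ν) := by
  obtain ⟨κ', hκ'⟩ : ∃ κ' : ℝ, κ' = (κ + 1 / 6) / 2 := ⟨_, rfl⟩
  obtain ⟨ν₀, X₁, hν₀, h⟩ := (ConductorOrderedSlope.result ℚ L).2.1 κ' 0 (by rw [hκ']; linarith)
  obtain ⟨ν, hν⟩ : ∃ ν, ν = min ν₀ (2 / 3) := ⟨_, rfl⟩
  have hν1 : ν ≤ ν₀ := by rw [hν]; exact min_le_left _ _
  have hν2 : ν ≤ 2 / 3 := by rw [hν]; exact min_le_right _ _
  refine ⟨ν, by rw [hν]; exact lt_min hν₀ (by norm_num), hν2, fun c => ?_⟩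
  refine Pool.Agent.X286.Win.sparse_of_sub (by linarith) (S' := Ex L κ' 0)
    (F := {q | q ∈ All L ∧ condQ q ≤ Real.exp (-c / (κ - κ'))}) ?_ (finite_all L _) ?_
  · refine sparse_large (by linarith)
      (fun X => (finite_all L X).subset fun q hq => ⟨ex_sub _ _ hq.1, hq.2⟩) fun ε hε => ?_
    obtain ⟨X₀, h2⟩ := (ConductorOrderedSlope.result ℚ L).1 ε hε
    refine ⟨max (max X₀ X₁) 1, fun X hX => ?_⟩
    have hX0 : X₀ ≤ X := (le_max_left _ _).trans ((le_max_left _ _).trans hX)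
    have hX1 : X₁ ≤ X := (le_max_right _ _).trans ((le_max_left _ _).trans hX)
    have hX2 : 1 ≤ X := (le_max_right _ _).trans hX
    have hX3 : 0 < X := by linarith
    rw [ex_eq]
    refine (h X hX1).trans ?_
    calc X ^ (-ν₀) * ((ConductorOrderedSlope.Curves L X).ncard : ℝ) ≤
          X ^ (-ν₀) * X ^ (2 / 3 + ε) :=
          mul_le_mul_of_nonneg_left (h2 X hX0).2.2 (Real.rpow_nonneg hX3.le _)
      _ = X ^ (-ν₀ + (2 / 3 + ε)) := by rw [← Real.rpow_add hX3]
      _ ≤ _ := Real.rpow_le_rpow_of_exponent_le hX2 (by linarith)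
  · rintro q ⟨E, t, h1, h2, h3, h4, h5⟩
    by_cases hc : κ' * Real.log (cond E) + 0 ≤ Module.finrank ℚ ℚ * height ℚ E t
    · exact Or.inl ⟨E, t, h1, h2, h3, h4, hc⟩
    · push Not at hc
      refine Or.inr ⟨⟨E, h1, h2, h3⟩, ?_⟩
      rw [condQ_mk h1]
      have h4 : 0 < κ - κ' := by rw [hκ']; linarith
      have h6 : Real.log (cond E) ≤ -c / (κ - κ') := by
        rw [le_div_iff₀ h4]
        nlinarith
      rcases le_or_gt (cond E) 0 with h7 | h7
      · exact h7.trans (Real.exp_pos _).le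
      · rwa [Real.log_le_iff_le_exp h7] at h6

theorem height_le_rat (K : Type) [Field K] [NumberField K] [Algebra K L] (E : WeierstrassCurve L)
    (t : InfinitePlace L → UpperHalfPlane) :
    (Module.finrank ℚ K : ℝ) * height K E t ≤ (Module.finrank ℚ ℚ : ℝ) * height ℚ E t := by
  have hd : ∀ (F : Type) [Field F] [NumberField F], (0 : ℝ) < Module.finrank ℚ F := by
    intro F _ _
    exact_mod_cast (Module.finrank_pos (R := ℚ) (M := F))
  have hK := hd K
  have hQ := hd ℚ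
  have h1 : ∀ (F : Type) [Field F] [NumberField F] [Algebra F L],
      (Module.finrank ℚ F : ℝ) * height F E t =
      (∑ᶠ v : HeightOneSpectrum (𝓞 L), (discExp v E : ℝ) * Real.log (Ideal.absNorm v.asIdeal : ℝ) +
        ∑ w : InfinitePlace L, (w.mult : ℝ) * arch (t w) +
        6 * (Real.log |(discr L : ℝ)| - Module.finrank F L * Real.log |(discr F : ℝ)|)) / 12 := by
    intro F _ _ _
    have hF := hd F
    unfold height
    field_simp
  rw [h1 K, h1 ℚ]
  have h2 : Real.log |(discr ℚ : ℝ)| = 0 := by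
    rw [Rat.numberField_discr]
    simp
  have h3 : 0 ≤ Real.log |(discr K : ℝ)| := by
    apply Real.log_nonneg
    have h4 : (1 : ℤ) ≤ |discr K| := Int.one_le_abs (discr_ne_zero K)
    exact_mod_cast h4
  have h5 : (0 : ℝ) ≤ (Module.finrank K L : ℝ) * Real.log |(discr K : ℝ)| := by positivity
  rw [h2]
  apply div_le_div_of_nonneg_right _ (by norm_num)
  linarith

end lemmas

/-- Let `L` be a number field, let `v n ≥ 1` have exponent of convergence at most `τ ≥ 0`, and let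
`θ < 1`.
(1) For `κ > 1/6` there is `ν > 0`, independent of `v`, `τ`, `θ`, and a set `X` of Hausdorff
dimension at most `(2/3 - ν + τ) / (1 - θ)` such that for all `a > 0` outside `X` and all real `c`,
for all but finitely many `n`, all elliptic curves `E` over `L` with full rational two-torsion and
`|cond E - a v n| ≤ (v n) ^ θ`, of whatever height, satisfy
`[K : ℚ] h_F(Res_{L/K} E) < κ log (cond E) - c`, for all subfields `K` of `L`.
(2) There is a set `X` of dimension at most `(2/3 + τ) / (1 - θ)` such that for all `a > 0` outside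
`X`, for all but finitely many `n`, there is no elliptic curve over `L` with full rational
two-torsion and `|cond E - a v n| ≤ (v n) ^ θ`.
(3), (4) The powers of `n + 1` and the geometric progressions are examples of `v`. -/
theorem result (L : Type) [Field L] [NumberField L] :
    (∀ κ : ℝ, 1 / 6 < κ → ∃ ν : ℝ, 0 < ν ∧ ν ≤ 2 / 3 ∧
      ∀ (v : ℕ → ℝ) (τ θ : ℝ), (∀ n, 1 ≤ v n) → 0 ≤ τ → ExpLe v τ → θ < 1 →
      ∃ X : Set ℝ, dimH X ≤ ENNReal.ofReal ((2 / 3 - ν + τ) / (1 - θ)) ∧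
        ∀ a : ℝ, 0 < a → a ∉ X → ∀ c : ℝ, ∃ n₀ : ℕ, ∀ n : ℕ, n₀ ≤ n → ∀ E : WeierstrassCurve L,
          E.Δ ≠ 0 → FullTwo E → |cond E - a * v n| ≤ (v n) ^ θ →
          ∀ (K : Type) [Field K] [NumberField K] [Algebra K L]
            (t : InfinitePlace L → UpperHalfPlane), IsPeriod (E.c₄ ^ 3 / E.Δ) t →
            Module.finrank ℚ K * height K E t < κ * Real.log (cond E) - c) ∧
    (∀ (v : ℕ → ℝ) (τ θ : ℝ), (∀ n, 1 ≤ v n) → 0 ≤ τ → ExpLe v τ → θ < 1 →
      ∃ X : Set ℝ, dimH X ≤ ENNReal.ofReal ((2 / 3 + τ) / (1 - θ)) ∧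
        ∀ a : ℝ, 0 < a → a ∉ X → ∃ n₀ : ℕ, ∀ n : ℕ, n₀ ≤ n → ∀ E : WeierstrassCurve L,
          E.Δ ≠ 0 → FullTwo E → (v n) ^ θ < |cond E - a * v n|) ∧
    (∀ b : ℝ, 0 < b → ExpLe (fun n : ℕ => ((n : ℝ) + 1) ^ b) (1 / b)) ∧
    (∀ b : ℝ, 1 < b → ExpLe (fun n : ℕ => b ^ n) 0) := by
  refine ⟨?_, ?_, fun b hb => Pool.Agent.Y854.GM.expLe_pow b hb,
    fun b hb => Pool.Agent.Y854.GM.expLe_geom b hb⟩
  · intro κ hκ
    obtain ⟨ν, hν0, hν1, hν⟩ := sparse_ex L hκ
    refine ⟨ν, hν0, hν1, fun v τ θ hv hτ hE hθ => ?_⟩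
    obtain ⟨X, h1, h2⟩ := Pool.Agent.X286.Win.family (fun i : ℕ => Ex L κ (-(i : ℝ)))
      (fun _ => condQ) (by linarith) (fun i => hν _) hv hτ hE hθ
    refine ⟨X, h1, fun a ha haX c => ?_⟩
    obtain ⟨k, hk⟩ := exists_nat_ge c
    obtain ⟨n₀, hn⟩ := h2 a ha haX k
    refine ⟨n₀, fun n hn1 E hE hE2 hw K _ _ _ t ht => ?_⟩
    by_contra hcon
    push Not at hcon
    have h3 := hcon.trans (height_le_rat K E t)
    have h4 := hn n hn1 (Quotient.mk'' E) ⟨E, t, rfl, hE, hE2, ht, by linarith⟩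
    rw [condQ_mk rfl] at h4
    exact absurd h4 (not_lt.2 hw)
  · intro v τ θ hv hτ hE hθ
    obtain ⟨X, h1, h2⟩ := Pool.Agent.Y854.GM.windows (All L) condQ hv hτ hE (by norm_num) hθ
      (sparse_all L)
    refine ⟨X, h1, fun a ha haX => ?_⟩
    obtain ⟨n₀, hn⟩ := h2 a ha haX
    refine ⟨n₀, fun n hn1 E hE hE2 => ?_⟩
    have h4 := hn n hn1 (Quotient.mk'' E) ⟨E, rfl, hE, hE2⟩
    rwa [condQ_mk rfl] at h4

end Pool.Agent.Results.MP_6babc4_nt.NoExceptionsInWindows
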