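import Pool.Agent.X12.Tor8

/-!
# The Faltings height against the conductor for the curves with a rational point of order three

Frey asks for constants `κ`, `c` with `h_F(A) ≤ κ log N_A + c`.  We consider ALL elliptic curves over
`ℚ` with a rational point of order three (of arbitrary, also additive, reduction).  There are
`B ^ (4 + o(1))` of them with Faltings height (over `ℚ`, not the stable one) `h_F(E) ≤ log B`.  Among
them, for every slope `lam` and real `c`, the number of the violators of `h_F(E) ≤ lam log N_E + c` is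

* `B ^ (1 / lam - 2 + o(1))` for every `1 / 6 ≤ lam ≤ 1 / 5`: the generic slope of this family is `1 / 6`
  (it is `1 / 12` for all elliptic curves, and these curves form a set of proportion zero there), and
  the proportion of the violators of the slope `lam` is `B ^ (- (6 - 1 / lam) + o(1))`;
* at least `B ^ (1 / lam - 2 - ε)` for every `1 / 6 ≤ lam < 1 / 2`, and at most `C B ^ (3 + ε)` for every
  `lam ≥ 1 / 5`.

The proof: the tangent at the flex has an integral slope `3 m` and the curves are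
`a = - (27 m⁴ + 6 m n)`, `b = 27 m⁶ - n²`; with `u = n + 9 m³` and `v = 4 m³ - u` the discriminant is
`27 u³ v`.  For a curve near the top of the box `|a| ≤ X²`, `|b| ≤ X³` with conductor at most `Z` one of
`u`, `v` is about `X ^ (3 / 2)`, and `u v` has a small radical outside `6 m`.  Splitting off the part
composed of primes of `6 m` and large square factors, one gets residue classes for `u` to a modulus
`d rad d`, `d ≤ X`, or the square of a large prime, and the total is `C X ^ ε (Z / X + X ^ (3 / 2))`.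
The lower bound comes from `y² + A x y + B y = x³` with `B = 2 ^ j s`, and with `B = 2 ^ (3 i)`,
`A = 3 2 ^ i + 5 ^ l s`.
-/

set_option autoImplicit false

namespace Pool.Agent.Results.MP_6babc4_nt.ThreeTorsionByHeight

open Filter Topology

/-- the discriminant of `x³ - a x - b` -/
def Disc (a b : ℤ) : ℤ := 4 * a ^ 3 - 27 * b ^ 2

/-- `y² = x³ - a x - b` is an elliptic curve and `|Disc|` is least among the integral models
`y² = x³ - a' x - b'`, `a' = u⁴ a`, `b' = u⁶ b`, `u ∈ ℚ^×`. Every elliptic curve over `ℚ` has exactly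
one such model. -/
def IsMinimal (a b : ℤ) : Prop :=
  Disc a b ≠ 0 ∧ ∀ (u : ℚ) (a' b' : ℤ), u ≠ 0 → (a' : ℚ) = u ^ 4 * a → (b' : ℚ) = u ^ 6 * b →
    |Disc a b| ≤ |Disc a' b'|

/-- the curve `y² = x³ - a x - b`, `q = (a, b)`, has a rational point of order three, i.e. a rational
point `(x, y)` at which the `3`-division polynomial `3 x⁴ - 6 a x² - 12 b x - a²` vanishes -/
def HasThreeTorsion (q : ℤ × ℤ) : Prop :=
  ∃ x y : ℚ, y ^ 2 = x ^ 3 - q.1 * x - q.2 ∧
    3 * x ^ 4 - 6 * q.1 * x ^ 2 - 12 * q.2 * x - q.1 ^ 2 = 0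

/-- the prime-to-6 part of the conductor of a minimal model: the product over the primes `p ≥ 5`
dividing `Disc` of `p` (multiplicative reduction: `p ∤ a`) or `p²` (additive reduction: `p ∣ a`) -/
def Cond6 (a b : ℤ) : ℕ :=
  ∏ p ∈ (Disc a b).natAbs.primeFactors.filter (fun p => 5 ≤ p), if (p : ℤ) ∣ a then p ^ 2 else p

/-- the curve `y² = x³ - a x - b` over `ℚ`, `q = (a, b)` -/
def E (q : ℤ × ℤ) : WeierstrassCurve ℚ := ⟨0, 0, 0, -(q.1 : ℚ), -(q.2 : ℚ)⟩

/-- the absolute value of the minimal discriminant of an elliptic curve `W` over `ℚ`: the smallest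
absolute value of the discriminant of a Weierstrass equation `V` with integer coefficients which is
isomorphic to `W` over `ℚ` -/
noncomputable def minDisc (W : WeierstrassCurve ℚ) : ℕ :=
  sInf {n : ℕ | ∃ (V : WeierstrassCurve ℤ) (C : WeierstrassCurve.VariableChange ℚ),
    C • W = V.map (Int.castRingHom ℚ) ∧ n = V.Δ.natAbs}

/-- the modular invariant `j(τ) = E₄(τ) ^ 3 / Δ(τ) = 1 / q + 744 + ⋯` -/
noncomputable def jInv (τ : UpperHalfPlane) : ℂ :=
  ModularForm.E₄ τ ^ 3 / ModularForm.discriminant τ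

/-- the archimedean term `- log (|Δ(τ)| (Im τ) ^ 6)` of the Faltings height -/
noncomputable def arch (τ : UpperHalfPlane) : ℝ :=
  -Real.log (‖ModularForm.discriminant τ‖ * τ.im ^ 6)

/-- `E(ℂ)` is isomorphic to `ℂ / (ℤ + ℤ τ)`: `j(τ) = c₄³ / Δ` is the invariant of `E` -/
def IsPeriod (q : ℤ × ℤ) (τ : UpperHalfPlane) : Prop :=
  jInv τ = (((E q).c₄ ^ 3 / (E q).Δ : ℚ) : ℂ)

/-- The Faltings height over `ℚ` (up to an additive constant which depends on the normalisation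
only): `12 h_F(E)` is the logarithm of the minimal discriminant plus the archimedean term at a period
`τ` of the curve. -/
noncomputable def height (q : ℤ × ℤ) (τ : UpperHalfPlane) : ℝ :=
  (Real.log (minDisc (E q) : ℝ) + arch τ) / 12

/-- the admissible factors: functions with values between `1` and `2 ^ 8 * 3 ^ 5`, for instance the
part of the conductor composed of the primes 2 and 3, or `f = 1` -/
def Factor (f : ℤ × ℤ → ℕ) : Prop := ∀ q, 1 ≤ f q ∧ f q ≤ 2 ^ 8 * 3 ^ 5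

/-- all elliptic curves over `ℚ` (minimal models) with a rational point of order three and
`h_F ≤ log B` -/
def Curves (B : ℝ) : Set (ℤ × ℤ) :=
  {q | ∃ τ, IsMinimal q.1 q.2 ∧ HasThreeTorsion q ∧ IsPeriod q τ ∧ height q τ ≤ Real.log B}

/-- those with `lam * log N + c < h_F`, where `N = f * Cond6` (for a suitable factor `f` this is the
conductor) -/
def Violators (f : ℤ × ℤ → ℕ) (lam c B : ℝ) : Set (ℤ × ℤ) :=
  {q | ∃ τ, IsMinimal q.1 q.2 ∧ HasThreeTorsion q ∧ IsPeriod q τ ∧ height q τ ≤ Real.log B ∧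
    lam * Real.log ((f q * Cond6 q.1 q.2 : ℕ) : ℝ) + c < height q τ}

/-- **Theorem.**  Every curve has a period, the sets are finite for `B ≥ 1`, and there are
`B ^ (4 + o(1))` elliptic curves over `ℚ` with a rational point of order three and `h_F ≤ log B`.  Let
`f` be a factor (e.g. such that `N = f * Cond6` is the conductor).
(1) For `1 / 6 ≤ lam ≤ 1 / 5` and every `c`, `B ^ (1 / lam - 2 + o(1))` of them violate
`h_F ≤ lam * log N + c`.  (2) For `1 / 6 ≤ lam < 1 / 2` at least `B ^ (1 / lam - 2 - ε)` of them do, for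
all large `B`.  (3) For `lam ≥ 1 / 5` at most `C B ^ (3 + ε)` of them do. -/
theorem result :
    (∀ q : ℤ × ℤ, ∃ τ, IsPeriod q τ) ∧
    (∀ B : ℝ, 1 ≤ B → (Curves B).Finite) ∧
    Tendsto (fun B : ℝ => Real.log ((Curves B).ncard : ℝ) / Real.log B) atTop (𝓝 4) ∧
    ∀ f : ℤ × ℤ → ℕ, Factor f →
    (∀ lam c : ℝ, 1 / 6 ≤ lam → lam ≤ 1 / 5 →
      Tendsto (fun B : ℝ => Real.log ((Violators f lam c B).ncard : ℝ) / Real.log B) atTop
        (𝓝 (1 / lam - 2))) ∧
    (∀ lam c ε : ℝ, 1 / 6 ≤ lam → lam < 1 / 2 → 0 < ε → ∃ B₀ : ℝ, ∀ B : ℝ, B₀ ≤ B →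
      B ^ (1 / lam - 2 - ε) ≤ ((Violators f lam c B).ncard : ℝ)) ∧
    (∀ lam c ε : ℝ, 1 / 5 ≤ lam → 0 < ε → ∃ C : ℝ, 0 < C ∧ ∀ B : ℝ, 1 ≤ B →
      ((Violators f lam c B).ncard : ℝ) ≤ C * B ^ (3 + ε)) := by
  have hfin : ∀ B : ℝ, 1 ≤ B → (Curves B).Finite := by
    intro B hB
    refine (Pool.Agent.X12.Szp.AH_finite hB).subset ?_
    rintro q ⟨τ, h1, -, h2, h3⟩
    exact ⟨τ, h1, h2, h3⟩
  have hsubC : ∀ f : ℤ × ℤ → ℕ, ∀ lam c B : ℝ, Violators f lam c B ⊆ Curves B := by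
    rintro f lam c B q ⟨τ, h0, h1, h2, h3, -⟩
    exact ⟨τ, h0, h1, h2, h3⟩
  -- comparison with the factor `1`
  have hlogN : ∀ f : ℤ × ℤ → ℕ, Factor f → ∀ q : ℤ × ℤ,
      Real.log (Cond6 q.1 q.2 : ℝ) ≤ Real.log ((f q * Cond6 q.1 q.2 : ℕ) : ℝ) ∧
      Real.log ((f q * Cond6 q.1 q.2 : ℕ) : ℝ) ≤
        Real.log (2 ^ 8 * 3 ^ 5 : ℝ) + Real.log (Cond6 q.1 q.2 : ℝ) := by
    intro f hf q
    obtain ⟨h1, h2⟩ := hf q
    have h3 : (0 : ℝ) < (Cond6 q.1 q.2 : ℝ) := Pool.Agent.X12.Szp.Cnd_pos' q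
    have h4 : (1 : ℝ) ≤ (f q : ℝ) := by exact_mod_cast h1
    have h5 : (f q : ℝ) ≤ 2 ^ 8 * 3 ^ 5 := by exact_mod_cast h2
    push_cast
    constructor
    · refine Real.log_le_log h3 ?_
      nlinarith
    · rw [← Real.log_mul (by norm_num) h3.ne']
      refine Real.log_le_log (by positivity) ?_
      gcongr
  have hup : ∀ f : ℤ × ℤ → ℕ, Factor f → ∀ lam c ε : ℝ, 0 < lam → 0 < ε →
      ∃ C : ℝ, 0 < C ∧ ∀ B : ℝ, 1 ≤ B →
      ((Violators f lam c B).ncard : ℝ) ≤ C * B ^ (2 * max (1 / (2 * lam) - 1) (3 / 2) + ε) := by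
    intro f hf lam c ε h1 h2
    obtain ⟨C, hC, h⟩ := Pool.Agent.X12.Tor.WHQ_upper Pool.Agent.X12.Tor.three_bound (by norm_num)
      lam c ε h1 h2
    refine ⟨C, hC, fun B hB => le_trans ?_ (h B hB)⟩
    have h3 : Violators f lam c B ⊆
        {q ∈ Pool.Agent.X12.Szp.WW' lam c B | Pool.Agent.X12.Tor.HasThree q} := by
      rintro q ⟨τ, k0, k4, k1, k2, k3⟩
      refine ⟨⟨τ, k0, k1, k2, lt_of_le_of_lt ?_ k3⟩, k4⟩
      have h4 := (hlogN f hf q).1
      have h5 : lam * Real.log (Cond6 q.1 q.2 : ℝ) ≤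
          lam * Real.log ((f q * Cond6 q.1 q.2 : ℕ) : ℝ) := by gcongr
      exact add_le_add_left h5 c
    exact_mod_cast Set.ncard_le_ncard h3
      ((Pool.Agent.X12.Szp.WW'_finite lam c hB).subset fun q hq => hq.1)
  have hlow : ∀ f : ℤ × ℤ → ℕ, Factor f → ∀ lam c ε : ℝ, 1 / 6 ≤ lam → lam < 1 / 2 → 0 < ε →
      ∃ B₀ : ℝ, ∀ B : ℝ, B₀ ≤ B → B ^ (1 / lam - 2 - ε) ≤ ((Violators f lam c B).ncard : ℝ) := by
    intro f hf lam c ε h1 h2 h3
    obtain ⟨B1, h⟩ := Pool.Agent.X12.Tor.three_WH_lower lam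
      (lam * Real.log (2 ^ 8 * 3 ^ 5 : ℝ) + c) ε h1 h2 h3
    refine ⟨max B1 1, fun B hB => (h B ((le_max_left _ _).trans hB)).trans ?_⟩
    have h4 : {q ∈ Pool.Agent.X12.Szp.WW' lam (lam * Real.log (2 ^ 8 * 3 ^ 5 : ℝ) + c) B |
        Pool.Agent.X12.Tor.HasThree q} ⊆ Violators f lam c B := by
      rintro q ⟨⟨τ, k0, k1, k2, k3⟩, k4⟩
      refine ⟨τ, k0, k4, k1, k2, lt_of_le_of_lt ?_ k3⟩
      have hl0 : 0 < lam := by linarith
      have h5 : lam * Real.log ((f q * Cond6 q.1 q.2 : ℕ) : ℝ) ≤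
          lam * (Real.log (2 ^ 8 * 3 ^ 5 : ℝ) + Real.log (Cond6 q.1 q.2 : ℝ)) := by
        have := (hlogN f hf q).2
        gcongr
      have h6 : lam * Real.log (Pool.Agent.X12.Szp.Cnd q.1 q.2 : ℝ) +
          (lam * Real.log (2 ^ 8 * 3 ^ 5 : ℝ) + c) =
          lam * (Real.log (2 ^ 8 * 3 ^ 5 : ℝ) + Real.log (Cond6 q.1 q.2 : ℝ)) + c := by
        have : Pool.Agent.X12.Szp.Cnd q.1 q.2 = Cond6 q.1 q.2 := rfl
        rw [this]
        ring
      rw [h6]
      exact add_le_add_left h5 c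
    exact_mod_cast Set.ncard_le_ncard h4
      ((hfin B ((le_max_right _ _).trans hB)).subset (hsubC f lam c B))
  refine ⟨Pool.Agent.X12.Szp.ex_Pr, hfin, ?_, fun f hf => ⟨fun lam c h1 h2 => ?_,
    hlow f hf, fun lam c ε h1 h2 => ?_⟩⟩
  · refine Pool.Agent.X12.Szp.tendsto_of_bounds _ _ (fun ε hε => ?_) fun ε hε => ?_
    · obtain ⟨B0, h⟩ := hlow (fun _ => 1) (fun _ => ⟨le_rfl, by norm_num⟩) (1 / 6) 0 ε le_rfl
        (by norm_num) hε
      refine ⟨max B0 1, fun B hB => ?_⟩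
      have h1 := h B ((le_max_left _ _).trans hB)
      have e1 : (1 : ℝ) / (1 / 6) - 2 - ε = 4 - ε := by norm_num
      rw [e1] at h1
      refine h1.trans ?_
      exact_mod_cast Set.ncard_le_ncard (hsubC _ (1 / 6) 0 B)
        (hfin B ((le_max_right _ _).trans hB))
    · obtain ⟨C, hC, h⟩ := Pool.Agent.X12.Tor.three_AH_card ε hε
      refine ⟨C, hC, fun B hB => le_trans ?_ (h B hB)⟩
      have h3 : Curves B ⊆ {q ∈ Pool.Agent.X12.Szp.AH B | Pool.Agent.X12.Tor.HasThree q} := by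
        rintro q ⟨τ, k0, k1, k2, k3⟩
        exact ⟨⟨τ, k0, k2, k3⟩, k1⟩
      exact_mod_cast Set.ncard_le_ncard h3
        ((Pool.Agent.X12.Szp.AH_finite hB).subset fun q hq => hq.1)
  · have hl0 : 0 < lam := by linarith
    have h4 : 3 / 2 ≤ 1 / (2 * lam) - 1 := by
      rw [le_sub_iff_add_le, le_div_iff₀ (by positivity)]
      linarith
    have e4 : 2 * (1 / (2 * lam) - 1) = 1 / lam - 2 := by
      field_simp
    refine Pool.Agent.X12.Szp.tendsto_of_bounds _ _
      (fun ε hε => hlow f hf lam c ε h1 (by linarith) hε) fun ε hε => ?_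
    obtain ⟨C, hC, h⟩ := hup f hf lam c ε hl0 hε
    refine ⟨C, hC, fun B hB => (h B hB).trans (le_of_eq ?_)⟩
    rw [max_eq_left h4, e4]
  · obtain ⟨C, hC, h⟩ := hup f hf lam c ε (by linarith) h2
    refine ⟨C, hC, fun B hB => (h B hB).trans (le_of_eq ?_)⟩
    have hl0 : 0 < lam := by linarith
    have h4 : 1 / (2 * lam) - 1 ≤ 3 / 2 := by
      rw [sub_le_iff_le_add, div_le_iff₀ (by positivity)]
      linarith
    rw [max_eq_right h4]
    congr 2
    norm_num

end Pool.Agent.Results.MP_6babc4_nt.ThreeTorsionByHeight
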